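import Pool.Agent.Helper28.VF.Defs

/-!
Packet DEG of the 3-connected plane map project: degrees and face lengths are at least 3.
-/

namespace Helper28.VF

open Finset Equiv

section
variable {D V E F : Type} [Fintype D] [Fintype V] [Fintype E] [Fintype F]
  [DecidableEq D] [DecidableEq V] [DecidableEq E] [DecidableEq F]

theorem degV_ge (M : PM D V E F) (h : M.C3) (v : V) :
    3 ≤ (univ.filter (fun d => M.vt d = v)).card := by
  set S := univ.filter (fun d => M.vt d = v) with hS
  set N : Finset V := S.image (fun d => M.vt (M.α d)) with hN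
  have hNc : N.card = S.card := by
    apply Finset.card_image_of_injOn
    intro d hd e he hde
    simp [hS] at hd he
    exact h.simple d e (hd.trans he.symm) hde
  have hvN : v ∉ N := by
    intro hv
    simp only [hN, hS, mem_image, mem_filter, mem_univ, true_and] at hv
    obtain ⟨d, hd, hd2⟩ := hv
    exact h.noloop d (hd2.trans hd.symm)
  by_cases hB : (univ \ (insert v N)).Nonempty
  · have h1 := h.cut3 {v} (univ \ (insert v N)) (Finset.singleton_nonempty v) hB ?_ ?_
    · have h2 : univ \ ({v} ∪ (univ \ (insert v N))) = N := by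
        ext x
        simp only [mem_sdiff, mem_univ, mem_union, mem_singleton, mem_insert, true_and]
        constructor
        · intro h3
          by_contra h4
          apply h3
          by_cases h5 : x = v
          · exact Or.inl h5
          · exact Or.inr (fun h6 => h6.elim h5 h4)
        · rintro h3 (h4 | h4)
          · exact hvN (h4 ▸ h3)
          · exact h4 (Or.inr h3)
      rw [h2, hNc] at h1
      exact h1
    · rw [Finset.disjoint_singleton_left]
      simp
    · intro d hd hd2
      rw [mem_singleton] at hd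
      simp only [mem_sdiff, mem_univ, mem_insert, true_and, not_or] at hd2
      apply hd2.2
      simp only [hN, hS, mem_image, mem_filter, mem_univ, true_and]
      exact ⟨d, hd, rfl⟩
  · have h3 : insert v N = univ := by
      rw [Finset.not_nonempty_iff_eq_empty, Finset.sdiff_eq_empty_iff_subset] at hB
      exact Finset.univ_subset_iff.mp hB
    have hc : (insert v N).card = Fintype.card V := by rw [h3]; rfl
    rw [Finset.card_insert_of_notMem hvN] at hc
    have := h.card4
    omega

theorem vt_sigma (M : PM D V E F) (d : D) : M.vt (M.σ d) = M.vt d := by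
  rw [M.vt_iff]
  exact ⟨-1, by simp⟩

theorem fc_phi (M : PM D V E F) (d : D) : M.fc (M.σ (M.α d)) = M.fc d := by
  rw [M.fc_iff]
  refine ⟨-1, ?_⟩
  rw [zpow_neg_one, Equiv.Perm.inv_eq_iff_eq]
  rfl

theorem deg_three (M : PM D V E F) (h : M.C3) (d : D) :
    M.vt d ≠ M.vt (M.σ (M.α d)) ∧ M.vt d ≠ M.vt (M.σ (M.α (M.σ (M.α d)))) ∧
      M.vt (M.σ (M.α d)) ≠ M.vt (M.σ (M.α (M.σ (M.α d)))) := by
  refine ⟨?_, ?_, ?_⟩
  · rw [vt_sigma]
    exact fun e => h.noloop d e.symm
  · intro e
    rw [vt_sigma] at e
    have h1 : M.σ (M.α d) = M.α d := by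
      apply h.simple
      · exact vt_sigma M _
      · rw [← e, M.α_inv]
    have h2 := degV_ge M h (M.vt (M.α d))
    have h3 : (univ.filter (fun e => M.vt e = M.vt (M.α d))) ⊆ {M.α d} := by
      intro x hx
      simp only [mem_filter, mem_univ, true_and] at hx
      rw [mem_singleton]
      have h4 : M.σ.SameCycle (M.α d) x := (M.vt_iff _ _).mp hx.symm
      obtain ⟨i, hi⟩ := h4
      rw [← hi]
      exact Equiv.Perm.zpow_apply_eq_self_of_apply_eq_self h1 i
    have h5 := Finset.card_le_card h3
    rw [Finset.card_singleton] at h5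
    omega
  · intro e
    rw [vt_sigma M (M.α (M.σ (M.α d)))] at e
    exact h.noloop _ e.symm

theorem degF_ge (M : PM D V E F) (h : M.C3) (f : F) :
    3 ≤ (univ.filter (fun d => M.fc d = f)).card := by
  obtain ⟨d, rfl⟩ := M.fc_surj f
  obtain ⟨h1, h2, h3⟩ := deg_three M h d
  have h4 : ({d, M.σ (M.α d), M.σ (M.α (M.σ (M.α d)))} : Finset D) ⊆
      univ.filter (fun e => M.fc e = M.fc d) := by
    intro x hx
    simp only [mem_insert, mem_singleton] at hx
    simp only [mem_filter, mem_univ, true_and]
    rcases hx with rfl | rfl | rfl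
    · rfl
    · exact fc_phi M d
    · rw [fc_phi, fc_phi]
  have h5 := Finset.card_le_card h4
  rw [Finset.card_eq_three.mpr ⟨d, M.σ (M.α d), M.σ (M.α (M.σ (M.α d))), ?_, ?_, ?_, rfl⟩] at h5
  · exact h5
  · intro e; exact h1 (congrArg M.vt e)
  · intro e; exact h2 (congrArg M.vt e)
  · intro e; exact h3 (congrArg M.vt e)

end

theorem stmtDeg : StmtDeg := by
  intro D V E F _ _ _ _ _ _ _ _ M h
  exact ⟨degV_ge M h, degF_ge M h, deg_three M h⟩

end Helper28.VF
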