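import Pool.Agent.Helper87.BF.Asm
import Pool.Agent.Helper58.BT.OneEnd

/-!
# The coset form: bounded finite subgroups, or at most one end
-/

set_option autoImplicit false

namespace Pool.Agent.Helper52.VFBase

universe u

theorem ap3c : Pool.Agent.Helper58.BT.Ap3cStmt.{u} :=
  Pool.Agent.Helper58.BT.ap3c_of Pool.Agent.Helper87.BF.Asm.t_INB'
    Pool.Agent.Helper87.BF.Asm.t_RKB' knd

end Pool.Agent.Helper52.VFBase
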