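import Pool.Agent.Helper38.VF.Goals2
import Pool.Agent.Helper58.VF.APP

/-!
# Infinitely many generators in one coset of a finitely generated subgroup
-/

set_option autoImplicit false

namespace Pool.Agent.Helper52.AP3

open Pool.Agent.Helper27.VF Pool.Agent.Helper38.VF Pool.Agent.Helper58.VF Filter

universe u

/-- Any two points of `P` are joined inside `P` by edges with labels in `F`. -/
def Lk {Γ : Type u} [Group Γ] (F P : Set Γ) : Prop :=
  ∀ x ∈ P, ∀ y ∈ P, Relation.ReflTransGen (fun a b => (cay F).Adj a b ∧ b ∈ P) x y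

theorem Lk.path_mono {Γ : Type u} [Group Γ] {F F' P P' : Set Γ} (hF : F ⊆ F') (hP : P ⊆ P')
    {x y : Γ} (h : Relation.ReflTransGen (fun a b => (cay F).Adj a b ∧ b ∈ P) x y) :
    Relation.ReflTransGen (fun a b => (cay F').Adj a b ∧ b ∈ P') x y :=
  Relation.ReflTransGen.mono (fun _ _ h1 => ⟨cay_le hF h1.1, hP h1.2⟩) _ _ h

theorem Lk.union {Γ : Type u} [Group Γ] {F F' P P' : Set Γ} (h : Lk F P) (h' : Lk F' P')
    {z : Γ} (hz : z ∈ P) (hz' : z ∈ P') : Lk (F ∪ F') (P ∪ P') := by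
  rintro x (hx | hx) y (hy | hy)
  · exact Lk.path_mono Set.subset_union_left Set.subset_union_left (h x hx y hy)
  · exact (Lk.path_mono Set.subset_union_left Set.subset_union_left (h x hx z hz)).trans
      (Lk.path_mono Set.subset_union_right Set.subset_union_right (h' z hz' y hy))
  · exact (Lk.path_mono Set.subset_union_right Set.subset_union_right (h' x hx z hz')).trans
      (Lk.path_mono Set.subset_union_left Set.subset_union_left (h z hz y hy))
  · exact Lk.path_mono Set.subset_union_right Set.subset_union_right (h' x hx y hy)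

theorem Lk.path_smul {Γ : Type u} [Group Γ] {F P : Set Γ} (g : Γ) {x y : Γ}
    (h : Relation.ReflTransGen (fun a b => (cay F).Adj a b ∧ b ∈ P) x y) :
    Relation.ReflTransGen (fun a b => (cay F).Adj a b ∧ b ∈ (fun x => g * x) '' P)
      (g * x) (g * y) := by
  refine Relation.ReflTransGen.lift (fun x => g * x) ?_ _ _ h
  rintro a b ⟨h1, h2⟩
  exact ⟨cay_mul g h1, b, h2, rfl⟩

theorem Lk.smul {Γ : Type u} [Group Γ] {F P : Set Γ} (h : Lk F P) (g : Γ) :
    Lk F ((fun x => g * x) '' P) := by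
  rintro _ ⟨x, hx, rfl⟩ _ ⟨y, hy, rfl⟩
  exact Lk.path_smul g (h x hx y hy)

theorem exists_patch {Γ : Type u} [Group Γ] {S : Set Γ} : ∀ g ∈ Subgroup.closure S,
    ∃ F P : Set Γ, F.Finite ∧ P.Finite ∧ F ⊆ S ∧ (1 : Γ) ∈ P ∧ g ∈ P ∧ Lk F P := by
  intro g hg
  induction hg using Subgroup.closure_induction with
  | mem s hs =>
    refine ⟨{s}, {1, s}, Set.finite_singleton _, by simp, by simpa using hs, by simp, by simp, ?_⟩
    have key : Relation.ReflTransGen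
        (fun a b => (cay ({s} : Set Γ)).Adj a b ∧ b ∈ ({1, s} : Set Γ)) 1 s := by
      by_cases h1 : (1 : Γ) = s
      · rw [← h1]
      · refine Relation.ReflTransGen.single ⟨cay_adj.2 ⟨h1, Or.inl ?_⟩, by simp⟩
        simp
    have key' : Relation.ReflTransGen
        (fun a b => (cay ({s} : Set Γ)).Adj a b ∧ b ∈ ({1, s} : Set Γ)) s 1 := by
      by_cases h1 : (1 : Γ) = s
      · rw [← h1]
      · refine Relation.ReflTransGen.single ⟨cay_adj.2 ⟨Ne.symm h1, Or.inr ?_⟩, by simp⟩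
        simp
    rintro x (rfl | rfl) y (rfl | rfl)
    · exact Relation.ReflTransGen.refl
    · exact key
    · exact key'
    · exact Relation.ReflTransGen.refl
  | one =>
    refine ⟨∅, {1}, Set.finite_empty, Set.finite_singleton _, Set.empty_subset _, rfl, rfl, ?_⟩
    rintro x rfl y rfl
    exact Relation.ReflTransGen.refl
  | mul x y _ _ hx hy =>
    obtain ⟨F, P, h1, h2, h3, h4, h5, h6⟩ := hx
    obtain ⟨F', P', h1', h2', h3', h4', h5', h6'⟩ := hy
    refine ⟨F ∪ F', P ∪ (fun z => x * z) '' P', h1.union h1', h2.union (h2'.image _),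
      Set.union_subset h3 h3', Or.inl h4, Or.inr ⟨y, h5', rfl⟩, ?_⟩
    exact h6.union (h6'.smul x) h5 ⟨1, h4', mul_one x⟩
  | inv x _ hx =>
    obtain ⟨F, P, h1, h2, h3, h4, h5, h6⟩ := hx
    exact ⟨F, (fun z => x⁻¹ * z) '' P, h1, h2.image _, h3, ⟨x, h5, inv_mul_cancel x⟩,
      ⟨1, h4, mul_one _⟩, h6.smul x⁻¹⟩

/-- A finite connected patch containing `1` and a finite set of elements. -/
theorem exists_patch_set {Γ : Type u} [Group Γ] {S : Set Γ} (hS : Subgroup.closure S = ⊤)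
    {T : Set Γ} (hT : T.Finite) :
    ∃ F P : Set Γ, F.Finite ∧ P.Finite ∧ F ⊆ S ∧ (1 : Γ) ∈ P ∧ T ⊆ P ∧ Lk F P := by
  refine hT.induction_on _ ?_ ?_
  · refine ⟨∅, {1}, Set.finite_empty, Set.finite_singleton _, Set.empty_subset _, rfl,
      Set.empty_subset _, ?_⟩
    rintro x rfl y rfl
    exact Relation.ReflTransGen.refl
  · intro a T _ _ ih
    obtain ⟨F, P, h1, h2, h3, h4, h5, h6⟩ := ih
    obtain ⟨F', P', h1', h2', h3', h4', h5', h6'⟩ :=
      exists_patch (S := S) a (by rw [hS]; exact Subgroup.mem_top _)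
    refine ⟨F ∪ F', P ∪ P', h1.union h1', h2.union h2', Set.union_subset h3 h3', Or.inl h4, ?_,
      h6.union h6' h4 h4'⟩
    rintro x (rfl | hx)
    · exact Or.inr h5'
    · exact Or.inl (h5 hx)

/-- The vertex set `A P`. -/
def WW {Γ : Type u} [Group Γ] (A : Subgroup Γ) (P : Set Γ) : SubMulAction A Γ where
  carrier := {x | ∃ a ∈ A, ∃ y ∈ P, x = a * y}
  smul_mem' := by
    rintro c x ⟨a, ha, y, hy, rfl⟩
    refine ⟨c * a, A.mul_mem c.2 ha, y, hy, ?_⟩
    rw [Subgroup.smul_def, smul_eq_mul, mul_assoc]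

theorem mem_WW {Γ : Type u} [Group Γ] {A : Subgroup Γ} {P : Set Γ} {x : Γ} :
    x ∈ WW A P ↔ ∃ a ∈ A, ∃ y ∈ P, x = a * y := Iff.rfl

/-- The graph induced on a set. -/
def onW {Γ : Type u} [Group Γ] {A : Subgroup Γ} (W : SubMulAction A Γ) (S : Set Γ) :
    SimpleGraph W := (cay S).comap Subtype.val

theorem onW_adj {Γ : Type u} [Group Γ] {A : Subgroup Γ} {W : SubMulAction A Γ} {S : Set Γ}
    {x y : W} : (onW W S).Adj x y ↔ (cay S).Adj (x : Γ) (y : Γ) := Iff.rfl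

theorem onW_smul {Γ : Type u} [Group Γ] {A : Subgroup Γ} {W : SubMulAction A Γ} {S : Set Γ}
    (a : A) (x y : W) (h : (onW W S).Adj x y) : (onW W S).Adj (a • x) (a • y) := by
  rw [onW_adj] at h ⊢
  exact cay_mul (a : Γ) h

theorem reach_path {Γ : Type u} [Group Γ] {A : Subgroup Γ} {P F : Set Γ} {a : Γ} (ha : a ∈ A)
    {x y : Γ} (hx : x ∈ P)
    (h : Relation.ReflTransGen (fun u v => (cay F).Adj u v ∧ v ∈ P) x y) :
    ∃ (h1 : a * x ∈ WW A P) (h2 : a * y ∈ WW A P),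
      (onW (WW A P) F).Reachable ⟨a * x, h1⟩ ⟨a * y, h2⟩ := by
  have hxW : a * x ∈ WW A P := ⟨a, ha, x, hx, rfl⟩
  refine ⟨hxW, ?_⟩
  induction h with
  | refl => exact ⟨hxW, SimpleGraph.Reachable.refl _⟩
  | tail _ hbc ih =>
    rename_i u v _
    obtain ⟨h2, hr⟩ := ih
    have hv : a * v ∈ WW A P := ⟨a, ha, v, hbc.2, rfl⟩
    exact ⟨hv, hr.trans (SimpleGraph.Adj.reachable (onW_adj.2 (cay_mul a hbc.1)))⟩

theorem setting3 {Γ : Type u} [Group Γ] {S : Set Γ} (hS : Subgroup.closure S = ⊤)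
    (A : Subgroup Γ) (hA : Group.FG A) (s₀ : Γ) (hs₀ : s₀ ∈ S)
    (hinf : {s | s ∈ S ∧ s * s₀⁻¹ ∈ A}.Infinite) (h1 : (1 : Γ) ∉ S) :
    ∃ (P : Set Γ) (w : WW A P) (G₀ : SimpleGraph (WW A P)) (p : Ultrafilter (WW A P)),
      (w : Γ) = 1 ∧ Stg A (onW (WW A P) S) G₀ w p := by
  classical
  obtain ⟨T, hT⟩ := Group.fg_iff'.1 hA
  obtain ⟨T, -, hT⟩ := hT
  obtain ⟨F, P, f1, f2, f3, f4, f5, f6⟩ := exists_patch_set hS
    (((T.finite_toSet.image (fun a : A => (a : Γ)))).union (Set.finite_singleton s₀))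
  have hs₀P : s₀ ∈ P := f5 (Or.inr rfl)
  have h1W : (1 : Γ) ∈ WW A P := ⟨1, A.one_mem, 1, f4, (mul_one 1).symm⟩
  let w : WW A P := ⟨1, h1W⟩
  let N : Set (WW A P) := {x | (x : Γ) ∈ S ∧ (x : Γ) * s₀⁻¹ ∈ A}
  have hN : N.Infinite := by
    intro hfin
    apply hinf
    refine (hfin.image (fun x : WW A P => (x : Γ))).subset ?_
    rintro s ⟨hs, hsA⟩
    exact ⟨⟨s, s * s₀⁻¹, hsA, s₀, hs₀P, by group⟩, ⟨hs, hsA⟩, rfl⟩
  have : (cofinite ⊓ 𝓟 N : Filter (WW A P)).NeBot := hN.cofinite_inf_principal_neBot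
  obtain ⟨p, hp⟩ : ∃ p : Ultrafilter (WW A P), (p : Filter (WW A P)) ≤ cofinite ⊓ 𝓟 N :=
    ⟨Ultrafilter.of _, Ultrafilter.of_le _⟩
  have hpc : (p : Filter (WW A P)) ≤ cofinite := hp.trans inf_le_left
  have hpN : N ∈ p := (hp.trans inf_le_right) (mem_principal_self N)
  refine ⟨P, w, onW (WW A P) F, p, rfl, ?_⟩
  refine { free := ?_, fin := ?_, le := ?_, inv := onW_smul, inv₀ := onW_smul, conn := ?_,
           lf := ?_, nonp := ?_, nb := ?_ }
  · intro a x hax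
    have h2 : (a : Γ) * (x : Γ) = x := congrArg Subtype.val hax
    exact Subtype.ext (mul_eq_right.1 h2)
  · refine ⟨{x : WW A P | (x : Γ) ∈ P}, ?_, ?_⟩
    · exact f2.preimage (Subtype.val_injective.injOn)
    · rintro ⟨x, a, ha, y, hy, rfl⟩
      have hyW : y ∈ WW A P := ⟨1, A.one_mem, y, hy, (one_mul y).symm⟩
      exact ⟨⟨a, ha⟩, ⟨y, hyW⟩, hy, rfl⟩
  · intro x y hxy
    exact cay_le f3 hxy
  · have hAr : ∀ t : A, ∀ g : A, (onW (WW A P) F).Reachable
        (g • w) ((g * t) • w) := by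
      intro t
      have ht : t ∈ Subgroup.closure (T : Set A) := by rw [hT]; exact Subgroup.mem_top _
      induction ht using Subgroup.closure_induction with
      | mem t ht =>
        intro g
        have htP : (t : Γ) ∈ P := f5 (Or.inl ⟨t, ht, rfl⟩)
        obtain ⟨h3, h4, hr⟩ := reach_path (F := F) g.2 f4 (f6 1 f4 t htP)
        have e1 : (g • w) = ⟨(g : Γ) * 1, h3⟩ := rfl
        have e2 : ((g * t) • w) = ⟨(g : Γ) * (t : Γ), h4⟩ := by
          apply Subtype.ext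
          show ((g * t : A) : Γ) * 1 = (g : Γ) * t
          rw [mul_one]; rfl
        rw [e1, e2]
        exact hr
      | one => intro g; rw [mul_one]
      | mul a b _ _ ha hb =>
        intro g
        rw [← mul_assoc]
        exact (ha g).trans (hb (g * a))
      | inv a _ ha =>
        intro g
        have h := ha (g * a⁻¹)
        rw [inv_mul_cancel_right] at h
        exact h.symm
    have hall : ∀ x : WW A P, (onW (WW A P) F).Reachable w x := by
      rintro ⟨x, a, ha, y, hy, rfl⟩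
      have h3 := hAr ⟨a, ha⟩ 1
      rw [one_smul, one_mul] at h3
      refine h3.trans ?_
      obtain ⟨h4, h5, hr⟩ := reach_path (F := F) ha f4 (f6 1 f4 y hy)
      exact hr
    have : Nonempty (WW A P) := ⟨w⟩
    exact SimpleGraph.Connected.mk fun x y => (hall x).symm.trans (hall y)
  · intro x
    exact (cay_lf f1 (x : Γ)).preimage (Subtype.val_injective.injOn)
  · intro K hK hKp
    have h2 : Kᶜ ∈ p := hpc hK.compl_mem_cofinite
    exact (Ultrafilter.compl_mem_iff_notMem.1 h2) hKp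
  · refine Filter.mem_of_superset hpN ?_
    rintro s ⟨hs, -⟩
    refine onW_adj.2 (cay_adj.2 ⟨?_, Or.inl ?_⟩)
    · intro h
      exact h1 (by have : (s : Γ) = 1 := h.symm; rw [← this]; exact hs)
    · show (1 : Γ)⁻¹ * (s : Γ) ∈ S
      rw [inv_one, one_mul]; exact hs

/-- `Con` for finitely generated torsion-free groups. -/
theorem con_of (hI : In2Stmt.{u}) (hR : Rk2Stmt.{u}) {A W : Type u} [Group A] [MulAction A W]
    (hAG : Group.FG A) (hTF : TF A) (G G₀ : SimpleGraph W) (w : W) (p : Ultrafilter W)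
    (hst : Stg A G G₀ w p) : Con A G p := by
  obtain ⟨T, hT⟩ := Group.fg_iff'.1 hAG
  obtain ⟨F, -, hF⟩ := hT
  by_contra hc
  have hD := hI (F.card + 1) A W G G₀ w p hst hTF hc
  let e : Fin F.card ≃ F := F.equivFin.symm
  have hcl : Subgroup.closure (Set.range fun i : Fin F.card => ((e i : F) : A)) = ⊤ := by
    have hr : (Set.range fun i : Fin F.card => ((e i : F) : A)) = (F : Set A) := by
      ext x
      constructor
      · rintro ⟨i, rfl⟩
        exact (e i).2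
      · intro hx
        exact ⟨e.symm ⟨x, hx⟩, by simp⟩
    rw [hr, hF]
  have := hR A F.card (F.card + 1) (fun i => ((e i : F) : A)) hcl hTF hD
  omega

/-- The coset form for a torsion-free subgroup of the whole group. -/
theorem ap3_sub (hI : In2Stmt.{u}) (hR : Rk2Stmt.{u}) (hK : KndStmt.{u}) (Γ : Type u) [Group Γ]
    (S : Set Γ) (hS : Subgroup.closure S = ⊤) (h1 : (1 : Γ) ∉ S) (A : Subgroup Γ)
    (hA : Group.FG A) (hTF : TF A) (s₀ : Γ) (hs₀ : s₀ ∈ S)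
    (hinf : {s | s ∈ S ∧ s * s₀⁻¹ ∈ A}.Infinite) :
    ∃ φ : ℕ → Set Γ,
    (∀ i, ((SimpleGraph.fromRel fun a b : Γ => a⁻¹ * b ∈ S).induce (φ i)).Connected) ∧
    (∀ i j, i ≠ j → Disjoint (φ i) (φ j)) ∧
    ∀ i j, i ≠ j → ∃ a ∈ φ i, ∃ b ∈ φ j,
      (SimpleGraph.fromRel fun a b : Γ => a⁻¹ * b ∈ S).Adj a b := by
  obtain ⟨P, w, G₀, p, hw, hst⟩ := setting3 hS A hA s₀ hs₀ hinf h1
  obtain ⟨Z, hZ1, hZ2⟩ := con_of hI hR hA hTF _ G₀ w p hst
  have hinj : Function.Injective (fun a : A => a • w) := by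
    intro a b hab
    have h2 : (a : Γ) * (w : Γ) = (b : Γ) * (w : Γ) := congrArg Subtype.val hab
    exact Subtype.ext (mul_right_cancel h2)
  obtain ⟨φ, g1, g2, g3⟩ := hK (WW A P) (onW (WW A P) S) ((fun a : A => a • w) '' Z)
    (hZ1.image hinj.injOn) (by
      rintro _ ⟨a, ha, rfl⟩ _ ⟨b, hb, rfl⟩ c hc ⟨hx, hy⟩
      exact hZ2 a ha b hb c hc ⟨fact1 hst hc hx, fact1' hst hc hy⟩)
  refine ⟨fun i => (fun x : WW A P => (x : Γ)) '' (φ i), ?_, ?_, ?_⟩
  · intro i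
    let f : ((onW (WW A P) S).induce (φ i)) →g
        (SimpleGraph.fromRel fun a b : Γ => a⁻¹ * b ∈ S).induce
          ((fun x : WW A P => (x : Γ)) '' (φ i)) :=
      ⟨fun x => ⟨((x : WW A P) : Γ), x.1, x.2, rfl⟩, by
        intro a b hab
        exact hab⟩
    refine (g1 i).map f ?_
    rintro ⟨_, x, hx, rfl⟩
    exact ⟨⟨x, hx⟩, rfl⟩
  · intro i j hij
    rw [Set.disjoint_left]
    rintro _ ⟨a, ha, rfl⟩ ⟨b, hb, hab⟩
    have hba : b = a := Subtype.ext hab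
    subst hba
    exact Set.disjoint_left.1 (g2 i j hij) ha hb
  · intro i j hij
    obtain ⟨a, ha, b, hb, hab⟩ := g3 i j hij
    exact ⟨a, ⟨a, ha, rfl⟩, b, ⟨b, hb, rfl⟩, hab⟩

/-- **The coset form.** -/
theorem ap3 (hI : In2Stmt.{u}) (hR : Rk2Stmt.{u}) (hK : KndStmt.{u}) (Γ : Type u) [Group Γ]
    (S : Set Γ) (hS : Subgroup.closure S = ⊤) (h1 : (1 : Γ) ∉ S) (D : Subgroup Γ)
    (hD : Group.FG D)
    (hA : ∃ A : Subgroup D, A.FiniteIndex ∧ ∀ a ∈ A, ∀ n : ℕ, 0 < n → a ^ n = 1 → a = 1)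
    (b : Γ) (hinf : {s | s ∈ S ∧ s * b⁻¹ ∈ D}.Infinite) :
    ∃ φ : ℕ → Set Γ,
    (∀ i, ((SimpleGraph.fromRel fun a b : Γ => a⁻¹ * b ∈ S).induce (φ i)).Connected) ∧
    (∀ i j, i ≠ j → Disjoint (φ i) (φ j)) ∧
    ∀ i j, i ≠ j → ∃ a ∈ φ i, ∃ b ∈ φ j,
      (SimpleGraph.fromRel fun a b : Γ => a⁻¹ * b ∈ S).Adj a b := by
  classical
  obtain ⟨A, hAf, htf⟩ := hA
  have := hAf
  have := hD
  have hAG : Group.FG A := Subgroup.fg_of_index_ne_zero A
  have : Finite (D ⧸ A) := Subgroup.finite_quotient_of_finiteIndex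
  -- the coset of `A` with infinitely many generators
  let f : Γ → D ⧸ A := fun s => if h : s * b⁻¹ ∈ D then
    (QuotientGroup.mk (⟨s * b⁻¹, h⟩ : D)⁻¹ : D ⧸ A) else QuotientGroup.mk 1
  obtain ⟨q, hq⟩ : ∃ q : D ⧸ A, {s | (s ∈ S ∧ s * b⁻¹ ∈ D) ∧ f s = q}.Infinite := by
    by_contra hcon
    push Not at hcon
    apply hinf
    refine (Set.finite_iUnion (fun q : D ⧸ A => hcon q)).subset ?_
    intro s hs
    exact Set.mem_iUnion.2 ⟨f s, hs, rfl⟩
  obtain ⟨s₀, ⟨hs₀S, hs₀D⟩, hs₀q⟩ := hq.nonempty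
  let A' : Subgroup Γ := A.map D.subtype
  have e : A ≃* A' := A.equivMapOfInjective D.subtype D.subtype_injective
  have hA'G : Group.FG A' := Group.fg_of_surjective (f := e.toMonoidHom) e.surjective
  have hTF : TF A' := by
    intro a n hn han
    have h3 : (e.symm a) ^ n = 1 := by rw [← map_pow, han, map_one]
    have h4 : e.symm a = 1 := by
      apply Subtype.ext
      exact htf _ (e.symm a).2 n hn (by rw [← Subgroup.coe_pow, h3]; rfl)
    exact e.symm.injective (h4.trans (map_one e.symm).symm)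
  refine ap3_sub hI hR hK Γ S hS h1 A' hA'G hTF s₀ hs₀S (hq.mono ?_)
  rintro s ⟨⟨hsS, hsD⟩, hsq⟩
  refine ⟨hsS, ?_⟩
  have h5 : f s = f s₀ := hsq.trans hs₀q.symm
  have h6 : (QuotientGroup.mk (⟨s * b⁻¹, hsD⟩ : D)⁻¹ : D ⧸ A) =
      QuotientGroup.mk (⟨s₀ * b⁻¹, hs₀D⟩ : D)⁻¹ := by
    have a1 : f s = QuotientGroup.mk (⟨s * b⁻¹, hsD⟩ : D)⁻¹ := dif_pos hsD
    have a2 : f s₀ = QuotientGroup.mk (⟨s₀ * b⁻¹, hs₀D⟩ : D)⁻¹ := dif_pos hs₀D
    rw [← a1, ← a2, h5]
  have h7 := QuotientGroup.eq.1 h6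
  refine ⟨_, h7, ?_⟩
  show (((⟨s * b⁻¹, hsD⟩ : D)⁻¹⁻¹ * (⟨s₀ * b⁻¹, hs₀D⟩ : D)⁻¹ : D) : Γ) = s * s₀⁻¹
  simp

end Pool.Agent.Helper52.AP3
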