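import Pool.Agent.Helper52.VF.AP3

/-!
# The coset form, generic in the subgroup
-/

set_option autoImplicit false

namespace Pool.Agent.Helper52.AP3

open Pool.Agent.Helper27.VF

universe u

/-- **The coset form, generic.** `D` is a finitely generated subgroup for which the conclusion `Con`
holds in all settings; some coset `D b` contains infinitely many elements of `S`. -/
theorem ap3_gen (hK : KndStmt.{u}) (Γ : Type u) [Group Γ]
    (S : Set Γ) (hS : Subgroup.closure S = ⊤) (h1 : (1 : Γ) ∉ S) (D : Subgroup Γ)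
    (hD : Group.FG D)
    (hCon : ∀ (W : Type u) [MulAction D W] (G G₀ : SimpleGraph W) (w : W) (p : Ultrafilter W),
      Stg D G G₀ w p → Con D G p)
    (b : Γ) (hinf : {s | s ∈ S ∧ s * b⁻¹ ∈ D}.Infinite) :
    ∃ φ : ℕ → Set Γ,
    (∀ i, ((SimpleGraph.fromRel fun a b : Γ => a⁻¹ * b ∈ S).induce (φ i)).Connected) ∧
    (∀ i j, i ≠ j → Disjoint (φ i) (φ j)) ∧
    ∀ i j, i ≠ j → ∃ a ∈ φ i, ∃ b ∈ φ j,
      (SimpleGraph.fromRel fun a b : Γ => a⁻¹ * b ∈ S).Adj a b := by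
  obtain ⟨s₀, hs₀S, hs₀D⟩ := hinf.nonempty
  have hinf' : {s | s ∈ S ∧ s * s₀⁻¹ ∈ D}.Infinite := by
    refine hinf.mono ?_
    rintro s ⟨hs, hsD⟩
    refine ⟨hs, ?_⟩
    have h2 : s * s₀⁻¹ = (s * b⁻¹) * (s₀ * b⁻¹)⁻¹ := by group
    rw [h2]
    exact D.mul_mem hsD (D.inv_mem hs₀D)
  obtain ⟨P, w, G₀, p, hw, hst⟩ := setting3 hS D hD s₀ hs₀S hinf' h1
  obtain ⟨Z, hZ1, hZ2⟩ := hCon _ _ G₀ w p hst
  have hinj : Function.Injective (fun a : D => a • w) := by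
    intro a b hab
    have h2 : (a : Γ) * (w : Γ) = (b : Γ) * (w : Γ) := congrArg Subtype.val hab
    exact Subtype.ext (mul_right_cancel h2)
  obtain ⟨φ, g1, g2, g3⟩ := hK (WW D P) (onW (WW D P) S) ((fun a : D => a • w) '' Z)
    (hZ1.image hinj.injOn) (by
      rintro _ ⟨a, ha, rfl⟩ _ ⟨b, hb, rfl⟩ c hc ⟨hx, hy⟩
      exact hZ2 a ha b hb c hc ⟨fact1 hst hc hx, fact1' hst hc hy⟩)
  refine ⟨fun i => (fun x : WW D P => (x : Γ)) '' (φ i), ?_, ?_, ?_⟩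
  · intro i
    let f : ((onW (WW D P) S).induce (φ i)) →g
        (SimpleGraph.fromRel fun a b : Γ => a⁻¹ * b ∈ S).induce
          ((fun x : WW D P => (x : Γ)) '' (φ i)) :=
      ⟨fun x => ⟨((x : WW D P) : Γ), x.1, x.2, rfl⟩, by
        intro a b hab
        exact hab⟩
    refine (g1 i).map f ?_
    rintro ⟨_, x, hx, rfl⟩
    exact ⟨⟨x, hx⟩, rfl⟩
  · intro i j hij
    rw [Set.disjoint_left]
    rintro _ ⟨a, ha, rfl⟩ ⟨b, hb, hab⟩
    have hba : b = a := Subtype.ext hab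
    subst hba
    exact Set.disjoint_left.1 (g2 i j hij) ha hb
  · intro i j hij
    obtain ⟨a, ha, b, hb, hab⟩ := g3 i j hij
    exact ⟨a, ⟨a, ha, rfl⟩, b, ⟨b, hb, rfl⟩, hab⟩

end Pool.Agent.Helper52.AP3
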