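import Pool.Agent.Helper52.VF.AP3G
import Pool.Agent.Helper52.VF.FinBT

/-!
# Infinitely many products of boundedly many generators in one coset
-/

set_option autoImplicit false

namespace Pool.Agent.Helper52.AP4

open Pool.Agent.Helper27.VF Pool.Agent.Helper38.VF Pool.Agent.Helper58.VF Pool.Agent.Helper52.AP3
  Filter

universe u

/-- `x` is a product of at most `N` elements of `S`. -/
def IsProd {Γ : Type u} [Group Γ] (S : Set Γ) (N : ℕ) (x : Γ) : Prop :=
  ∃ l : List Γ, l.length ≤ N ∧ (∀ s ∈ l, s ∈ S) ∧ l.prod = x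

/-- A walk which starts in `c.1` and does not meet the separator stays in `c.1`. -/
theorem stay {Γ : Type u} [Group Γ] {S : Set Γ} {c : Set Γ × Set Γ} (hc : IsCut (cay S) c) :
    ∀ (l : List Γ) (g : Γ), (∀ s ∈ l, s ∈ S) → g ∈ c.1 →
      (∀ l1 l2 : List Γ, l1 ++ l2 = l → l1 ≠ [] → g * l1.prod ∉ sep c) → g * l.prod ∈ c.1 := by
  intro l
  induction l with
  | nil => intro g _ hg _; simpa using hg
  | cons s l ih =>
    intro g hl hg h
    have h1 : g * s ∉ sep c := by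
      have := h [s] l rfl (by simp)
      simpa using this
    have h2 : g * s ∉ c.2 := by
      intro h2
      refine hc.no g hg (g * s) h2 (cay_adj.2 ⟨?_, Or.inl ?_⟩)
      · intro h3
        rw [← h3] at h2
        exact hc.disj g hg h2
      · rw [inv_mul_cancel_left]
        exact hl s (by simp)
    have h3 : g * s ∈ c.1 := by
      by_contra h3
      exact h1 (mem_sep.2 ⟨h3, h2⟩)
    have h4 := ih (g * s) (fun t ht => hl t (by simp [ht])) h3 (by
      intro l1 l2 h12 hne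
      have := h (s :: l1) l2 (by simp [h12]) (by simp)
      rwa [List.prod_cons, ← mul_assoc] at this)
    rwa [List.prod_cons, ← mul_assoc]

/-- The pairs `(a, x)` such that a walk from `a v` to `a x` may meet `X` between its ends. -/
def BP {Γ : Type u} [Group Γ] (S : Set Γ) (D : Subgroup Γ) (M : ℕ) (v b : Γ) (X : Set Γ) :
    Set (Γ × Γ) :=
  {q | q.1 ∈ D ∧ q.2 * b⁻¹ ∈ D ∧ ∃ u, q.1 * u ∈ X ∧ IsProd S M (v⁻¹ * u) ∧
    IsProd S M (u⁻¹ * q.2)}

theorem BP_finite {Γ : Type u} [Group Γ] {S : Set Γ} {D : Subgroup Γ} {M : ℕ} {v b : Γ}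
    {X : Set Γ} (hX : X.Finite)
    (hM : ∀ v b : Γ, {x | x * b⁻¹ ∈ D ∧ IsProd S M (v⁻¹ * x)}.Finite) :
    (BP S D M v b X).Finite := by
  have h1 : (⋃ ξ ∈ X, ⋃ u ∈ {u | u * ξ⁻¹ ∈ D ∧ IsProd S M (v⁻¹ * u)},
      ({ξ * u⁻¹} : Set Γ) ×ˢ {x | x * b⁻¹ ∈ D ∧ IsProd S M (u⁻¹ * x)}).Finite :=
    hX.biUnion fun ξ _ => (hM v ξ).biUnion fun u _ => (Set.finite_singleton _).prod (hM u b)
  refine h1.subset ?_
  rintro ⟨a, x⟩ ⟨ha, hx, u, hu, h2, h3⟩
  refine Set.mem_biUnion hu (Set.mem_biUnion (x := u) ⟨?_, h2⟩ ⟨?_, hx, h3⟩)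
  · have e : u * (a * u)⁻¹ = a⁻¹ := by group
    show u * (a * u)⁻¹ ∈ D
    rw [e]
    exact D.inv_mem ha
  · show a = (a * u) * u⁻¹
    group

/-- The walks of the pairs which are not bad. -/
theorem good_walk {Γ : Type u} [Group Γ] {S : Set Γ} {D : Subgroup Γ} {M : ℕ} {v b : Γ}
    {c : Set Γ × Set Γ} (hc : IsCut (cay S) c) {a x : Γ} (ha : a ∈ D) (hx : x * b⁻¹ ∈ D)
    (hp : IsProd S (M + 1) (v⁻¹ * x)) (hb : (a, x) ∉ BP S D M v b (sep c)) (hv : a * v ∈ c.1)
    (hs : a * x ∉ sep c) : a * x ∈ c.1 := by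
  obtain ⟨l, h1, h2, h3⟩ := hp
  have h4 : a * v * l.prod = a * x := by rw [h3]; group
  rw [← h4]
  refine stay hc l (a * v) h2 hv ?_
  intro l1 l2 h12 hne h5
  by_cases hl2 : l2 = []
  · subst hl2
    rw [List.append_nil] at h12
    subst h12
    rw [h4] at h5
    exact hs h5
  · refine hb ⟨ha, hx, v * l1.prod, ?_, ⟨l1, ?_, ?_, ?_⟩, ⟨l2, ?_, ?_, ?_⟩⟩
    · show a * (v * l1.prod) ∈ sep c
      rw [← mul_assoc]; exact h5
    · have := List.length_pos_iff.2 hl2
      rw [← h12, List.length_append] at h1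
      omega
    · intro s hs'
      exact h2 s (by rw [← h12]; exact List.mem_append_left _ hs')
    · group
    · have := List.length_pos_iff.2 hne
      rw [← h12, List.length_append] at h1
      omega
    · intro s hs'
      exact h2 s (by rw [← h12]; exact List.mem_append_right _ hs')
    · show l2.prod = (v * l1.prod)⁻¹ * x
      have h6 : x = v * (l1.prod * l2.prod) := by
        rw [← List.prod_append, h12, h3]; group
      rw [h6]; group

/-- The connected locally finite graph. -/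
theorem base4 {Γ : Type u} [Group Γ] {S : Set Γ} (hS : Subgroup.closure S = ⊤)
    (D : Subgroup Γ) (hD : Group.FG D) (v b : Γ) :
    ∃ F P : Set Γ, F.Finite ∧ F ⊆ S ∧ P.Finite ∧ (1 : Γ) ∈ P ∧ v ∈ P ∧ b ∈ P ∧
      (onW (WW D P) F).Connected := by
  classical
  obtain ⟨T, hT⟩ := Group.fg_iff'.1 hD
  obtain ⟨T, -, hT⟩ := hT
  obtain ⟨F, P, f1, f2, f3, f4, f5, f6⟩ := exists_patch_set hS
    (((T.finite_toSet.image (fun a : D => (a : Γ)))).union (Set.toFinite {v, b}))
  refine ⟨F, P, f1, f3, f2, f4, f5 (Or.inr (by simp)), f5 (Or.inr (by simp)), ?_⟩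
  have h1W : (1 : Γ) ∈ WW D P := ⟨1, D.one_mem, 1, f4, (mul_one 1).symm⟩
  let w : WW D P := ⟨1, h1W⟩
  have hAr : ∀ t : D, ∀ g : D, (onW (WW D P) F).Reachable
      (g • w) ((g * t) • w) := by
    intro t
    have ht : t ∈ Subgroup.closure (T : Set D) := by rw [hT]; exact Subgroup.mem_top _
    induction ht using Subgroup.closure_induction with
    | mem t ht =>
      intro g
      have htP : (t : Γ) ∈ P := f5 (Or.inl ⟨t, ht, rfl⟩)
      obtain ⟨h3, h4, hr⟩ := reach_path (F := F) g.2 f4 (f6 1 f4 t htP)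
      have e1 : (g • w) = ⟨(g : Γ) * 1, h3⟩ := rfl
      have e2 : ((g * t) • w) = ⟨(g : Γ) * (t : Γ), h4⟩ := by
        apply Subtype.ext
        show ((g * t : D) : Γ) * 1 = (g : Γ) * t
        rw [mul_one]; rfl
      rw [e1, e2]
      exact hr
    | one => intro g; rw [mul_one]
    | mul a b _ _ ha hb =>
      intro g
      rw [← mul_assoc]
      exact (ha g).trans (hb (g * a))
    | inv a _ ha =>
      intro g
      have h := ha (g * a⁻¹)
      rw [inv_mul_cancel_right] at h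
      exact h.symm
  have hall : ∀ x : WW D P, (onW (WW D P) F).Reachable w x := by
    rintro ⟨x, a, ha, y, hy, rfl⟩
    have h3 := hAr ⟨a, ha⟩ 1
    rw [one_smul, one_mul] at h3
    refine h3.trans ?_
    obtain ⟨h4, h5, hr⟩ := reach_path (F := F) ha f4 (f6 1 f4 y hy)
    exact hr
  have : Nonempty (WW D P) := ⟨w⟩
  exact SimpleGraph.Connected.mk fun x y => (hall x).symm.trans (hall y)

/-- The relation: `a v` and `a e`, for `e` in `E`. -/
def Rl {Γ : Type u} [Group Γ] (D : Subgroup Γ) (P E : Set Γ) (v : Γ) (x y : WW D P) : Prop :=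
  ∃ a ∈ D, ∃ e ∈ E, (x : Γ) = a * v ∧ (y : Γ) = a * e

/-- The graph `G'`. -/
def GG {Γ : Type u} [Group Γ] (D : Subgroup Γ) (P E F : Set Γ) (v : Γ) :
    SimpleGraph (WW D P) := onW (WW D P) F ⊔ SimpleGraph.fromRel (Rl D P E v)

theorem Rl.smul {Γ : Type u} [Group Γ] {D : Subgroup Γ} {P E : Set Γ} {v : Γ} {x y : WW D P}
    (h : Rl D P E v x y) (g : D) : Rl D P E v (g • x) (g • y) := by
  obtain ⟨a, ha, e, he, h1, h2⟩ := h
  refine ⟨(g : Γ) * a, D.mul_mem g.2 ha, e, he, ?_, ?_⟩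
  · show (g : Γ) * (x : Γ) = (g : Γ) * a * v
    rw [h1, mul_assoc]
  · show (g : Γ) * (y : Γ) = (g : Γ) * a * e
    rw [h2, mul_assoc]

theorem stg4 {Γ : Type u} [Group Γ] {D : Subgroup Γ} {P E F : Set Γ} {v : Γ} (hF : F.Finite)
    (hP : P.Finite) (hc : (onW (WW D P) F).Connected) (w : WW D P) (hw : (w : Γ) = v)
    (p : Ultrafilter (WW D P)) (hp : (p : Filter (WW D P)) ≤ cofinite)
    (hE : {x : WW D P | (x : Γ) ∈ E} ∈ p) :
    Stg D (GG D P E F v) (onW (WW D P) F) w p := by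
  have hnp : ∀ K : Set (WW D P), K.Finite → K ∉ p := by
    intro K hK hKp
    have h2 : Kᶜ ∈ p := hp hK.compl_mem_cofinite
    exact (Ultrafilter.compl_mem_iff_notMem.1 h2) hKp
  refine { free := ?_, fin := ?_, le := le_sup_left, inv := ?_, inv₀ := onW_smul, conn := hc,
           lf := ?_, nonp := hnp, nb := ?_ }
  · intro a x hax
    have h2 : (a : Γ) * (x : Γ) = x := congrArg Subtype.val hax
    exact Subtype.ext (mul_eq_right.1 h2)
  · refine ⟨{x : WW D P | (x : Γ) ∈ P}, ?_, ?_⟩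
    · exact hP.preimage (Subtype.val_injective.injOn)
    · rintro ⟨x, a, ha, y, hy, rfl⟩
      have hyW : y ∈ WW D P := ⟨1, D.one_mem, y, hy, (one_mul y).symm⟩
      exact ⟨⟨a, ha⟩, ⟨y, hyW⟩, hy, rfl⟩
  · intro a x y hxy
    rcases hxy with hxy | hxy
    · exact Or.inl (onW_smul a x y hxy)
    · right
      rw [SimpleGraph.fromRel_adj] at hxy ⊢
      refine ⟨fun h => hxy.1 (MulAction.injective a h), ?_⟩
      rcases hxy.2 with h | h
      · exact Or.inl (h.smul a)
      · exact Or.inr (h.smul a)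
  · intro x
    exact (cay_lf hF (x : Γ)).preimage (Subtype.val_injective.injOn)
  · have h1 : {x : WW D P | x ≠ w} ∈ p := by
      have : {x : WW D P | x ≠ w} = ({w} : Set (WW D P))ᶜ := rfl
      rw [this, Ultrafilter.compl_mem_iff_notMem]
      exact hnp _ (Set.finite_singleton w)
    refine Filter.mem_of_superset (Filter.inter_mem hE h1) ?_
    rintro x ⟨hx1, hx2⟩
    refine Or.inr ?_
    rw [SimpleGraph.fromRel_adj]
    refine ⟨Ne.symm hx2, Or.inl ⟨1, D.one_mem, x, hx1, ?_, ?_⟩⟩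
    · rw [hw, one_mul]
    · rw [one_mul]

/-- **The coset form for products, generic.** -/
theorem ap4_gen (hK : KndStmt.{u}) (Γ : Type u) [Group Γ]
    (S : Set Γ) (hS : Subgroup.closure S = ⊤) (D : Subgroup Γ)
    (hD : Group.FG D)
    (hCon : ∀ (W : Type u) [MulAction D W] (G G₀ : SimpleGraph W) (w : W) (p : Ultrafilter W),
      Stg D G G₀ w p → Con D G p)
    (N : ℕ) (b : Γ) (hinf : {x | x * b⁻¹ ∈ D ∧ IsProd S N x}.Infinite) :
    ∃ φ : ℕ → Set Γ,
    (∀ i, ((SimpleGraph.fromRel fun a b : Γ => a⁻¹ * b ∈ S).induce (φ i)).Connected) ∧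
    (∀ i j, i ≠ j → Disjoint (φ i) (φ j)) ∧
    ∀ i j, i ≠ j → ∃ a ∈ φ i, ∃ b ∈ φ j,
      (SimpleGraph.fromRel fun a b : Γ => a⁻¹ * b ∈ S).Adj a b := by
  classical
  have hQ : ∃ N : ℕ, ∃ v b : Γ, {x | x * b⁻¹ ∈ D ∧ IsProd S N (v⁻¹ * x)}.Infinite := by
    refine ⟨N, 1, b, ?_⟩
    simpa using hinf
  clear hinf N b
  obtain ⟨v, b, hE⟩ := Nat.find_spec hQ
  have hmin : ∀ m < Nat.find hQ, ∀ v b : Γ,
      {x | x * b⁻¹ ∈ D ∧ IsProd S m (v⁻¹ * x)}.Finite := by
    intro m hm v b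
    by_contra hcon
    exact Nat.find_min hQ hm ⟨v, b, hcon⟩
  generalize Nat.find hQ = N at hE hmin
  obtain _ | M := N
  · exfalso
    apply hE
    refine (Set.finite_singleton v).subset ?_
    rintro x ⟨-, l, h1, h2, h3⟩
    have : l = [] := List.length_eq_zero_iff.1 (by omega)
    subst this
    rw [List.prod_nil] at h3
    show x = v
    exact (inv_mul_eq_one.1 h3.symm).symm
  have hM := hmin M (by omega)
  clear hmin hQ
  set E : Set Γ := {x | x * b⁻¹ ∈ D ∧ IsProd S (M + 1) (v⁻¹ * x)} with hEdef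
  obtain ⟨F, P, hF, hFS, hP, h1P, hvP, hbP, hconn⟩ := base4 hS D hD v b
  have hvW : v ∈ WW D P := ⟨1, D.one_mem, v, hvP, (one_mul v).symm⟩
  have hEW : ∀ x ∈ E, x ∈ WW D P := fun x hx => ⟨x * b⁻¹, hx.1, b, hbP, by group⟩
  have hN : {x : WW D P | (x : Γ) ∈ E}.Infinite := by
    intro hfin
    apply hE
    refine (hfin.image (fun x : WW D P => (x : Γ))).subset ?_
    intro x hx
    exact ⟨⟨x, hEW x hx⟩, hx, rfl⟩
  have : (cofinite ⊓ 𝓟 {x : WW D P | (x : Γ) ∈ E} : Filter (WW D P)).NeBot :=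
    hN.cofinite_inf_principal_neBot
  obtain ⟨p, hp⟩ : ∃ p : Ultrafilter (WW D P),
      (p : Filter (WW D P)) ≤ cofinite ⊓ 𝓟 {x : WW D P | (x : Γ) ∈ E} :=
    ⟨Ultrafilter.of _, Ultrafilter.of_le _⟩
  have hpc : (p : Filter (WW D P)) ≤ cofinite := hp.trans inf_le_left
  have hpN : {x : WW D P | (x : Γ) ∈ E} ∈ p := (hp.trans inf_le_right) (mem_principal_self _)
  have hst := stg4 hF hP hconn ⟨v, hvW⟩ rfl p hpc hpN
  obtain ⟨Z, hZ1, hZ2⟩ := hCon _ _ _ _ p hst
  refine hK Γ (cay S) ((fun a : D => (a : Γ) * v) '' Z) (hZ1.image ?_) ?_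
  · intro a _ b _ hab
    exact Subtype.ext (mul_right_cancel hab)
  · rintro _ ⟨z, hz, rfl⟩ _ ⟨z', hz', rfl⟩ c hc ⟨hU, hV⟩
    have hBP := BP_finite (v := v) (b := b) hc.fin hM
    let Y : Set Γ := (fun q : Γ × Γ => q.1 * v) '' BP S D M v b (sep c) ∪
      (fun q : Γ × Γ => q.1 * q.2) '' BP S D M v b (sep c)
    have hY : Y.Finite := (hBP.image _).union (hBP.image _)
    -- the translates of `p`
    have key : ∀ (c' : Set Γ × Set Γ), IsCut (cay S) c' → sep c' = sep c → ∀ z : D,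
        (z : Γ) * v ∈ c'.1 → Inn p z {x : WW D P | (x : Γ) ∈ c'.1 ∧ (x : Γ) ∉ Y} := by
      intro c' hc' hsc z hzv
      have f1 : {x : WW D P | (z : Γ) * (x : Γ) ∈ Y}.Finite := by
        refine Set.Finite.of_finite_image (f := fun x : WW D P => (z : Γ) * (x : Γ))
          (hY.subset ?_) ?_
        · rintro _ ⟨x, hx, rfl⟩; exact hx
        · intro x _ y _ hxy
          exact Subtype.ext (mul_left_cancel hxy)
      have f2 : {x : WW D P | (z : Γ) * (x : Γ) ∈ sep c}.Finite := by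
        refine Set.Finite.of_finite_image (f := fun x : WW D P => (z : Γ) * (x : Γ))
          (hc.fin.subset ?_) ?_
        · rintro _ ⟨x, hx, rfl⟩; exact hx
        · intro x _ y _ hxy
          exact Subtype.ext (mul_left_cancel hxy)
      have f3 : {x : WW D P | ((z : Γ), (x : Γ)) ∈ BP S D M v b (sep c)}.Finite := by
        refine Set.Finite.of_finite_image (f := fun x : WW D P => ((z : Γ), (x : Γ)))
          (hBP.subset ?_) ?_
        · rintro _ ⟨x, hx, rfl⟩; exact hx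
        · intro x _ y _ hxy
          exact Subtype.ext (congrArg Prod.snd hxy)
      have f4 : (({x : WW D P | (z : Γ) * (x : Γ) ∈ Y} ∪
          {x : WW D P | (z : Γ) * (x : Γ) ∈ sep c}) ∪
          {x : WW D P | ((z : Γ), (x : Γ)) ∈ BP S D M v b (sep c)})ᶜ ∈ p :=
        hpc ((f1.union f2).union f3).compl_mem_cofinite
      refine Filter.mem_of_superset (Filter.inter_mem hpN f4) ?_
      rintro x ⟨hx1, hx2⟩
      have g1 : (z : Γ) * (x : Γ) ∉ Y := fun h => hx2 (Or.inl (Or.inl h))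
      have g2 : (z : Γ) * (x : Γ) ∉ sep c := fun h => hx2 (Or.inl (Or.inr h))
      have g3 : ((z : Γ), (x : Γ)) ∉ BP S D M v b (sep c) := fun h => hx2 (Or.inr h)
      refine ⟨?_, g1⟩
      show (z : Γ) * (x : Γ) ∈ c'.1
      exact good_walk hc' z.2 hx1.1 hx1.2 (by rw [hsc]; exact g3) hzv (by rw [hsc]; exact g2)
    refine hZ2 z hz z' hz' ({x : WW D P | (x : Γ) ∈ c.1 ∧ (x : Γ) ∉ Y},
      {x : WW D P | (x : Γ) ∈ c.2 ∧ (x : Γ) ∉ Y}) ?_ ⟨?_, ?_⟩
    · refine { disj := ?_, fin := ?_, no := ?_ }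
      · rintro x ⟨h1, -⟩ ⟨h2, -⟩
        exact hc.disj _ h1 h2
      · refine ((hc.fin.union hY).preimage
          (f := fun x : WW D P => (x : Γ)) (Subtype.val_injective.injOn)).subset ?_
        intro x hx
        rw [mem_sep] at hx
        by_cases hxY : (x : Γ) ∈ Y
        · exact Or.inr hxY
        · exact Or.inl (mem_sep.2 ⟨fun h => hx.1 ⟨h, hxY⟩, fun h => hx.2 ⟨h, hxY⟩⟩)
      · rintro x ⟨hx, hxY⟩ y ⟨hy, hyY⟩ hxy
        rcases hxy with hxy | hxy
        · exact hc.no _ hx _ hy (cay_le hFS hxy)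
        · rw [SimpleGraph.fromRel_adj] at hxy
          rcases hxy.2 with ⟨a, ha, e, he, h1, h2⟩ | ⟨a, ha, e, he, h1, h2⟩
          · rw [h1] at hx hxY
            rw [h2] at hy
            refine hc.disj _ (good_walk hc ha he.1 he.2 ?_ hx ?_) hy
            · intro h
              exact hxY (Or.inl ⟨_, h, rfl⟩)
            · intro h
              exact (mem_sep.1 h).2 hy
          · rw [h1] at hy hyY
            rw [h2] at hx
            refine hc.disj _ hx (good_walk hc.swap ha he.1 he.2 ?_ hy ?_)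
            · rw [sep_swap]
              intro h
              exact hyY (Or.inl ⟨_, h, rfl⟩)
            · rw [sep_swap]
              intro h
              exact (mem_sep.1 h).1 hx
    · exact key c hc rfl z hU
    · exact key (c.2, c.1) hc.swap (sep_swap c) z' hV

/-- **The coset form for products.** -/
theorem ap4c (Γ : Type u) [Group Γ] (S : Set Γ) (hS : Subgroup.closure S = ⊤) (D : Subgroup Γ)
    (hD : Group.FG D)
    (h : (∃ N : ℕ, ∀ F : Subgroup D, (F : Set D).Finite → Nat.card F ≤ N) ∨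
      Pool.Agent.Helper58.BT.AtMostOneEnd D)
    (N : ℕ) (b : Γ) (hinf : {x | x * b⁻¹ ∈ D ∧ IsProd S N x}.Infinite) :
    ∃ φ : ℕ → Set Γ,
    (∀ i, ((SimpleGraph.fromRel fun a b : Γ => a⁻¹ * b ∈ S).induce (φ i)).Connected) ∧
    (∀ i j, i ≠ j → Disjoint (φ i) (φ j)) ∧
    ∀ i j, i ≠ j → ∃ a ∈ φ i, ∃ b ∈ φ j,
      (SimpleGraph.fromRel fun a b : Γ => a⁻¹ * b ∈ S).Adj a b := by
  refine ap4_gen Pool.Agent.Helper52.VFBase.knd Γ S hS D hD ?_ N b hinf
  intro W _ G G₀ w p hst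
  rcases h with h | h
  · exact Pool.Agent.Helper58.BT.con_of_bdd Pool.Agent.Helper87.BF.Asm.t_INB'
      Pool.Agent.Helper87.BF.Asm.t_RKB' D hD h W G G₀ w p hst
  · exact Pool.Agent.Helper58.BT.con_of_oneEnd D h W G G₀ w p hst

end Pool.Agent.Helper52.AP4
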