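import Pool.Agent.Helper67.VF.RF
import Pool.Agent.Helper58.VF.APP

/-!
# Project RF, packet APR
-/

set_option autoImplicit false

namespace Pool.Agent.Helper52.VF

open Pool.Agent.Helper27.VF Pool.Agent.Helper67.RF Pool.Agent.Helper58.VF

universe u

/-- The conclusion for one torsion-free subgroup of finite index gives the complete minor. -/
theorem minor_of_con {Γ : Type u} [Group Γ] (hK : KndStmt.{u}) (hG : Group.FG Γ) (A : Subgroup Γ)
    (hAf : A.FiniteIndex)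
    (hc : ∀ (G G₀ : SimpleGraph Γ) (w : Γ) (p : Ultrafilter Γ), Stg A G G₀ w p → Con A G p)
    (S : Set Γ) (hS : Subgroup.closure S = ⊤) (h1 : (1 : Γ) ∉ S) (hinf : S.Infinite) :
    ∃ φ : ℕ → Set Γ,
    (∀ i, ((SimpleGraph.fromRel fun a b : Γ => a⁻¹ * b ∈ S).induce (φ i)).Connected) ∧
    (∀ i j, i ≠ j → Disjoint (φ i) (φ j)) ∧
    ∀ i j, i ≠ j → ∃ a ∈ φ i, ∃ b ∈ φ j,
      (SimpleGraph.fromRel fun a b : Γ => a⁻¹ * b ∈ S).Adj a b := by
  obtain ⟨G₀, p, hst⟩ := setting hG A hAf S hS h1 hinf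
  obtain ⟨Z, hZ1, hZ2⟩ := hc (cay S) G₀ 1 p hst
  refine hK Γ (cay S) ((fun a : A => (a : Γ)) '' Z) (hZ1.image Subtype.val_injective.injOn) ?_
  rintro _ ⟨a, ha, rfl⟩ _ ⟨b, hb, rfl⟩ c hc ⟨hx, hy⟩
  have e1 : ∀ a : A, a • (1 : Γ) = (a : Γ) := fun a => by
    rw [Subgroup.smul_def, smul_eq_mul, mul_one]
  refine hZ2 a ha b hb c hc ⟨fact1 hst hc ?_, fact1' hst hc ?_⟩
  · rw [e1]; exact hx
  · rw [e1]; exact hy

theorem apr (hR : RkbStmt.{u}) (hI : InrStmt.{u}) (hK : KndStmt.{u}) : AprStmt.{u} := by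
  intro Γ _ hG hA S hS _ h1 hinf
  obtain ⟨A, hAf, htf, hrf⟩ := hA
  have := hAf
  have := hG
  have hAG : Group.FG A := Subgroup.fg_of_index_ne_zero A
  obtain ⟨r, hr⟩ := hR A hAG hrf
  refine minor_of_con hK hG A hAf ?_ S hS h1 hinf
  intro G G₀ w p hst
  refine hI r A Γ G G₀ w p ?_ hr hst
  intro a n hn han
  have := htf a a.2 n hn (by rw [← Subgroup.coe_pow, han, Subgroup.coe_one])
  exact Subtype.ext this

end Pool.Agent.Helper52.VF
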