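import Pool.Agent.Helper52.VF.Base
import Pool.Agent.Helper52.VF.APR
import Pool.Agent.Helper67.VF.DRX
import Pool.Agent.Helper31.VF.RKS
import Pool.Agent.Helper81.VF.INR

/-!
# Project RF, put together
-/

set_option autoImplicit false

namespace Pool.Agent.Helper52.VFBase

open Pool.Agent.Helper27.VF Pool.Agent.Helper67.RF

universe u

theorem drx : DrxStmt.{u} := Pool.Agent.Helper67.RF.drx pth ora frd

theorem inr : InrStmt.{u} := Pool.Agent.Helper81.VF.inr dra drx Pool.Agent.Helper31.VF.rks tof

theorem apr (h : RkbStmt.{u}) : AprStmt.{u} := Pool.Agent.Helper52.VF.apr h inr knd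

end Pool.Agent.Helper52.VFBase
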