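import Pool.Agent.Helper52.VF.Base
import Pool.Agent.Helper67.VF.DEV
import Pool.Agent.Helper81.VF.L2maps
import Pool.Agent.Helper90.VF.L2D
import Pool.Agent.Helper61.VF.FOX
import Pool.Agent.Helper55.VF.TR1
import Pool.Agent.Helper61.VF.TR2
import Pool.Agent.Helper24.VF.TRC
import Pool.Agent.Helper70.VF.RK2
import Pool.Agent.Helper37.VF.IN2
import Pool.Agent.Helper58.VF.AP2
import Pool.Agent.Helper38.VF.DST

/-!
# Project VTF, put together
-/

set_option autoImplicit false

namespace Pool.Agent.Helper52.VFBase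

open Pool.Agent.Helper27.VF Pool.Agent.Helper38.VF

universe u

theorem dev : DevStmt.{u} := Pool.Agent.Helper67.VTF.dev pth ora frd

theorem kur : KurStmt.{u} := Pool.Agent.Helper81.VF.kur

theorem rtr : RtrStmt.{u} := Pool.Agent.Helper81.VF.rtr

theorem act : ActStmt.{u} := Pool.Agent.Helper81.VF.act

theorem l2d : L2dStmt.{u} := Pool.Agent.Helper90.VF.l2d

theorem fox : FoxStmt.{u} := Pool.Agent.Helper61.VF.fox kur

theorem tr1 : Tr1Stmt.{u} := Pool.Agent.Helper55.VF.tr1

theorem tr2 : Tr2Stmt.{u} := Pool.Agent.Helper61.VF.tr2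

theorem trc : TrcStmt.{u} := Pool.Agent.Helper24.VF.trc tr1 tr2 rtr

theorem rk2 : Rk2Stmt.{u} := Pool.Agent.Helper70.VF.RK2 act l2d fox kur trc

theorem dst : DstStmt.{u} := Pool.Agent.Helper38.VF.dst

theorem in2 : In2Stmt.{u} := Pool.Agent.Helper37.VF.in2 dra dev dst tof fac

theorem ap2 : Ap2Stmt.{u} := Pool.Agent.Helper58.VF.ap2 in2 rk2 knd

end Pool.Agent.Helper52.VFBase
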