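import Pool.Agent.Helper24.VF.FAC
import Pool.Agent.Helper12.VF.CHN
import Pool.Agent.Helper49.VF.LIM
import Pool.Agent.Helper14.VF.LOC
import Pool.Agent.Helper85.VF.PTH
import Pool.Agent.Helper23.VF.ORA
import Pool.Agent.Helper16.VF.ORB
import Pool.Agent.Helper3.VF.ORC
import Pool.Agent.Helper53.VF.FRD
import Pool.Agent.Helper3.VF.DER
import Pool.Agent.Helper18.VF.DRA
import Pool.Agent.Helper66.VF.TOA
import Pool.Agent.Helper59.VF.TOB
import Pool.Agent.Helper40.VF.TOC
import Pool.Agent.Helper76.VF.TOD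
import Pool.Agent.Helper4.VF.TOE
import Pool.Agent.Helper39.VF.TOF
import Pool.Agent.Helper77.VF.KND

/-!
# The geometric packets of project VF, put together
-/

set_option autoImplicit false

namespace Pool.Agent.Helper52.VFBase

open Pool.Agent.Helper27.VF

universe u

theorem fac : FacStmt.{u} := Pool.Agent.Helper24.VF.fac
theorem chn : ChnStmt.{u} := Pool.Agent.Helper12.VF.chn fac
theorem lim : LimStmt.{u} := Pool.Agent.Helper49.VF.lim
theorem loc : LocStmt.{u} := Pool.Agent.Helper14.VF.loc fac chn lim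
theorem pth : PthStmt.{u} := Pool.Agent.Helper85.VF.pth loc
theorem ora : OraStmt.{u} := Pool.Agent.Helper23.VF.ora pth
theorem orb : OrbStmt.{u} := Pool.Agent.Helper16.VF.orb ora
theorem orc : OrcStmt.{u} := Pool.Agent.Helper3.VF.orc ora orb
theorem frd : FrdStmt.{u} := Pool.Agent.Helper53.VF.frd loc orc
theorem der : DerStmt.{u} := Pool.Agent.Helper3.VF.der
theorem dra : DraStmt.{u} := Pool.Agent.Helper18.VF.dra der pth ora orb orc frd
theorem toa : ToaStmt.{u} := Pool.Agent.Helper66.VF.toa fac orb frd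
theorem tob : TobStmt.{u} := Pool.Agent.Helper59.VF.tob loc
theorem toc : TocStmt.{u} := Pool.Agent.Helper40.VF.toc pth toa orb frd
theorem tod : TodStmt.{u} := Pool.Agent.Helper76.VF.tod
theorem toe : ToeStmt.{u} := Pool.Agent.Helper4.VF.toe
theorem tof : TofStmt.{u} := Pool.Agent.Helper39.VF.tof toa tob toc tod toe
theorem knd : KndStmt.{u} := Pool.Agent.Helper77.VF.knd

end Pool.Agent.Helper52.VFBase
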