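import Pool.Agent.Helper52.VF.AsmVTF
import Pool.Agent.Helper52.VF.AP3

/-!
# Finitely generated virtually torsion-free groups: the coset form without hypotheses
-/

set_option autoImplicit false

namespace Pool.Agent.Helper52.VFBase

universe u

theorem ap3 (Γ : Type u) [Group Γ]
    (S : Set Γ) (hS : Subgroup.closure S = ⊤) (h1 : (1 : Γ) ∉ S) (D : Subgroup Γ)
    (hD : Group.FG D)
    (hA : ∃ A : Subgroup D, A.FiniteIndex ∧ ∀ a ∈ A, ∀ n : ℕ, 0 < n → a ^ n = 1 → a = 1)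
    (b : Γ) (hinf : {s | s ∈ S ∧ s * b⁻¹ ∈ D}.Infinite) :
    ∃ φ : ℕ → Set Γ,
    (∀ i, ((SimpleGraph.fromRel fun a b : Γ => a⁻¹ * b ∈ S).induce (φ i)).Connected) ∧
    (∀ i j, i ≠ j → Disjoint (φ i) (φ j)) ∧
    ∀ i j, i ≠ j → ∃ a ∈ φ i, ∃ b ∈ φ j,
      (SimpleGraph.fromRel fun a b : Γ => a⁻¹ * b ∈ S).Adj a b :=
  Pool.Agent.Helper52.AP3.ap3 in2 rk2 knd Γ S hS h1 D hD hA b hinf

end Pool.Agent.Helper52.VFBase
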